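import Mathlib

/-!
The definitions used in the statement: norm, quadratic forms `∑ a_ij x_i x_j` over a Dedekind
domain, Euclidean and anisotropic forms, completions of lattices, genus, class number one.
-/

namespace Pool.Agent.Lib.MP_14e93c_nt

open IsDedekindDomain HeightOneSpectrum

open Classical in
/-- The norm on `R`: `|x| = #(R/xR)` for `x ≠ 0`, and `|0| = 0`. -/
noncomputable def normR {R : Type*} [CommRing R] (x : R) : ℕ :=
  if x = 0 then 0 else Nat.card (R ⧸ Ideal.span {x})

/-- For `z` in the fraction field `K` of `R`: the relation `|z| < 1`, where `|a/b| = |a|/|b|`. -/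
def NormLtOne (R : Type*) [CommRing R] {K : Type*} [Field K] [Algebra R K] (z : K) : Prop :=
  ∃ a b : R, b ≠ 0 ∧ z = algebraMap R K a / algebraMap R K b ∧ normR a < normR b

/-- The quadratic form `q(x) = ∑ a_ij x_i x_j` with coefficients `a_ij` in `R`, evaluated at a
vector `x` with entries in an `R`-algebra `F`. -/
def qf {R : Type*} [CommRing R] {n : ℕ} (a : Matrix (Fin n) (Fin n) R) (F : Type*) [CommRing F]
    [Algebra R F] (x : Fin n → F) : F :=
  ∑ i, ∑ j, algebraMap R F (a i j) * x i * x j

/-- `q` is anisotropic: `q(x) = 0` with `x ∈ K^n` only for `x = 0`. -/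
def IsAnisotropic {R : Type*} (K : Type*) [CommRing R] [Field K] [Algebra R K] {n : ℕ}
    (a : Matrix (Fin n) (Fin n) R) : Prop :=
  ∀ x : Fin n → K, qf a K x = 0 → ∀ i, x i = 0

/-- `q` is Euclidean: for every `x ∈ K^n` there is `y ∈ R^n` with `|q(x - y)| < 1`. -/
def IsEuclidean {R : Type*} (K : Type*) [CommRing R] [Field K] [Algebra R K] {n : ℕ}
    (a : Matrix (Fin n) (Fin n) R) : Prop :=
  ∀ x : Fin n → K, ∃ y : Fin n → R, NormLtOne R (qf a K fun i => x i - algebraMap R K (y i))

/-- Two submodules `M`, `N` of an `A`-module `V` are isometric with respect to `q : V → F`: there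
is an `A`-linear bijection from `M` to `N` preserving `q`. -/
def IsometricFor {A V F : Type*} [CommRing A] [AddCommGroup V] [Module A V] (q : V → F)
    (M N : Submodule A V) : Prop :=
  ∃ f : V → V, Set.BijOn f M N ∧ (∀ x ∈ M, ∀ y ∈ M, f (x + y) = f x + f y) ∧
    (∀ c : A, ∀ x ∈ M, f (c • x) = c • f x) ∧ ∀ x ∈ M, q (f x) = q x

/-- The `A`-submodule of `F^n` generated by the image of a subset `M` of `K^n` (`F` is a
`K`-algebra and an `A`-algebra). -/
def extendTo (A F : Type*) {K : Type*} [CommRing A] [CommRing F] [Algebra A F] [Field K]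
    [Algebra K F] {n : ℕ} (M : Set (Fin n → K)) : Submodule A (Fin n → F) :=
  Submodule.span A ((fun (x : Fin n → K) (i : Fin n) => algebraMap K F (x i)) '' M)

/-- The lattice `R^n` in `K^n`. -/
def stdLattice (R K : Type*) [CommRing R] [Field K] [Algebra R K] (n : ℕ) :
    Submodule R (Fin n → K) :=
  LinearMap.range ((Algebra.linearMap R K).compLeft (Fin n))

section Genus

variable {R K : Type*} [CommRing R] [IsDedekindDomain R] [Field K] [Algebra R K]
  [IsFractionRing R K] {n : ℕ}

/-- The completion `M_v` of a lattice `M` in `K^n` at the maximal ideal `v`: the `R_v`-submodule of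
`K_v^n` generated by `M`. -/
noncomputable def completeAt (v : HeightOneSpectrum R) (M : Submodule R (Fin n → K)) :
    Submodule (v.adicCompletionIntegers K) (Fin n → v.adicCompletion K) :=
  extendTo (v.adicCompletionIntegers K) (v.adicCompletion K) (M : Set (Fin n → K))

/-- `M_v` and `N_v` are isometric quadratic `R_v`-modules. -/
def IsometricAt (a : Matrix (Fin n) (Fin n) R) (v : HeightOneSpectrum R)
    (M N : Submodule R (Fin n → K)) : Prop :=
  IsometricFor (qf a (v.adicCompletion K)) (completeAt v M) (completeAt v N)

/-- `M` lies in the genus of `R^n`: `M` is a lattice in `K^n` (a finitely generated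
`R`-submodule spanning `K^n`) which is isometric to `R^n` over the completion at each maximal
ideal. -/
def InGenus (a : Matrix (Fin n) (Fin n) R) (M : Submodule R (Fin n → K)) : Prop :=
  Submodule.IsLattice K M ∧ ∀ v : HeightOneSpectrum R, IsometricAt a v M (stdLattice R K n)

/-- `q` has class number one: every lattice in the genus of `R^n` is isometric to `R^n`. -/
def HasClassNumberOne (K : Type*) [Field K] [Algebra R K] [IsFractionRing R K]
    (a : Matrix (Fin n) (Fin n) R) : Prop :=
  ∀ M : Submodule R (Fin n → K), InGenus a M → IsometricFor (qf a K) M (stdLattice R K n)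

end Genus

end Pool.Agent.Lib.MP_14e93c_nt
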