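import Pool.Agent.Lib.MP_14e93c_nt.Defs

/-!
Descent by reflections for Euclidean quadratic forms over a domain with finite residue rings.
-/

set_option linter.unusedSectionVars false

namespace Pool.Agent.Lib.MP_14e93c_nt

open Module

section Norm

variable {R : Type*} [CommRing R]

theorem normR_eq_index {x : R} (hx : x ≠ 0) :
    normR x = (Ideal.span {x} : Ideal R).toAddSubgroup.index := by
  unfold normR
  rw [if_neg hx]
  rfl

theorem index_map_mul [IsDomain R] {x : R} (hx : x ≠ 0) (I : AddSubgroup R) :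
    (I.map (AddMonoidHom.mulLeft x)).index = I.index * normR x := by
  rw [AddSubgroup.index_map_of_injective _ (fun a b h => mul_left_cancel₀ hx h), normR_eq_index hx]
  congr 2
  ext y
  simp [Ideal.mem_span_singleton', mul_comm]

theorem normR_mul [IsDomain R] {x y : R} (hx : x ≠ 0) (hy : y ≠ 0) :
    normR (x * y) = normR x * normR y := by
  have h := index_map_mul hx (Ideal.span {y} : Ideal R).toAddSubgroup
  rw [← normR_eq_index hy] at h
  rw [mul_comm (normR x), ← h, normR_eq_index (mul_ne_zero hx hy)]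
  congr 1
  ext z
  simp only [Submodule.mem_toAddSubgroup, Ideal.mem_span_singleton', AddSubgroup.mem_map,
    AddMonoidHom.coe_mulLeft]
  constructor
  · rintro ⟨a, rfl⟩
    exact ⟨a * y, ⟨a, rfl⟩, by ring⟩
  · rintro ⟨_, ⟨a, rfl⟩, rfl⟩
    exact ⟨a, by ring⟩

end Norm

section Descent

variable {R K V : Type*} [CommRing R] [IsDomain R] [Field K] [Algebra R K] [IsFractionRing R K]
  [AddCommGroup V] [Module K V] [Module R V] [IsScalarTower R K V]

/-- `M` is integral with respect to `Q`. -/
def IntegralOn (Q : QuadraticForm K V) (M : Submodule R V) : Prop :=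
  ∀ x ∈ M, ∃ r : R, Q x = algebraMap R K r

theorem IntegralOn.polar {Q : QuadraticForm K V} {M : Submodule R V} (h : IntegralOn Q M)
    {x y : V} (hx : x ∈ M) (hy : y ∈ M) : ∃ r : R, QuadraticMap.polar Q x y = algebraMap R K r := by
  obtain ⟨a, ha⟩ := h _ (M.add_mem hx hy)
  obtain ⟨b, hb⟩ := h _ hx
  obtain ⟨c, hc⟩ := h _ hy
  exact ⟨a - b - c, by simp [QuadraticMap.polar, ha, hb, hc]⟩

/-- The reflection in the anisotropic vector `v`. -/
noncomputable def refl (Q : QuadraticForm K V) (v : V) (hv : Q v ≠ 0) : V ≃ₗ[K] V :=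
  Module.reflection (x := v) (f := (Q v)⁻¹ • (QuadraticMap.polarBilin Q v)) (by
    simp only [LinearMap.smul_apply, QuadraticMap.polarBilin_apply_apply, smul_eq_mul,
      QuadraticMap.polar_self, nsmul_eq_mul]
    field_simp
    norm_num)

theorem refl_apply (Q : QuadraticForm K V) (v : V) (hv : Q v ≠ 0) (z : V) :
    refl Q v hv z = z - ((Q v)⁻¹ * QuadraticMap.polar Q v z) • v := by
  simp [refl, Module.reflection_apply]

theorem refl_isometry (Q : QuadraticForm K V) (v : V) (hv : Q v ≠ 0) (z : V) :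
    Q (refl Q v hv z) = Q z := by
  rw [refl_apply, sub_eq_add_neg, ← neg_smul, QuadraticMap.map_add (Q : V → K),
    QuadraticMap.map_smul, QuadraticMap.polar_smul_right, QuadraticMap.polar_comm Q z v]
  simp only [smul_eq_mul]
  field_simp
  ring

/-- The data of a Euclidean anisotropic lattice `L`. -/
structure EuclideanLattice (Q : QuadraticForm K V) (L : Submodule R V) : Prop where
  fin : ∀ I : Ideal R, I ≠ ⊥ → Finite (R ⧸ I)
  aniso : ∀ x : V, Q x = 0 → x = 0
  integral : IntegralOn Q L
  torsion : ∀ x : V, ∃ d : R, d ≠ 0 ∧ d • x ∈ L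
  euclid : ∀ x : V, ∃ y ∈ L, NormLtOne R (Q (x - y))

variable {Q : QuadraticForm K V} {L : Submodule R V}

theorem index_ne_zero (hfin : ∀ I : Ideal R, I ≠ ⊥ → Finite (R ⧸ I)) {I : Ideal R} (hI : I ≠ ⊥) :
    I.toAddSubgroup.index ≠ 0 := by
  have := hfin I hI
  exact @AddSubgroup.index_ne_zero_of_finite _ _ I.toAddSubgroup this

theorem normR_pos (hfin : ∀ I : Ideal R, I ≠ ⊥ → Finite (R ⧸ I)) {x : R} (hx : x ≠ 0) :
    0 < normR x := by
  rw [normR_eq_index hx]
  exact Nat.pos_of_ne_zero (index_ne_zero hfin (by simpa using hx))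

/-- An integral element of norm less than one is zero. -/
theorem eq_zero_of_normLtOne (hfin : ∀ I : Ideal R, I ≠ ⊥ → Finite (R ⧸ I)) {r : R}
    (h : NormLtOne R (algebraMap R K r)) : r = 0 := by
  obtain ⟨a, b, hb, hab, hlt⟩ := h
  have hb' : algebraMap R K b ≠ 0 := by simpa using hb
  rw [eq_div_iff hb', ← map_mul] at hab
  have hab' : r * b = a := IsFractionRing.injective R K hab
  by_contra hr
  rw [← hab', normR_mul hr hb] at hlt
  have := normR_pos hfin hr
  nlinarith [normR_pos hfin hb]

/-- A Euclidean lattice is a maximal integral lattice. -/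
theorem EuclideanLattice.mem_of_integral (h : EuclideanLattice Q L) {x : V}
    (hx : ∃ r : R, Q x = algebraMap R K r)
    (hxL : ∀ y ∈ L, ∃ r : R, QuadraticMap.polar Q x y = algebraMap R K r) : x ∈ L := by
  obtain ⟨y, hy, hlt⟩ := h.euclid x
  obtain ⟨r, hr⟩ := hx
  obtain ⟨s, hs⟩ := hxL _ (L.neg_mem hy)
  obtain ⟨t, ht⟩ := h.integral _ hy
  have hQ : Q (x - y) = algebraMap R K (r + t + s) := by
    rw [sub_eq_add_neg, QuadraticMap.map_add (Q : V → K), hr, hs, QuadraticMap.map_neg, ht]
    simp
  rw [hQ] at hlt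
  have h0 := eq_zero_of_normLtOne h.fin hlt
  rw [h0, map_zero] at hQ
  have := h.aniso _ hQ
  rw [sub_eq_zero] at this
  rwa [this]

/-- The ideal of all `r` with `r • x ∈ L`. -/
def den (L : Submodule R V) (x : V) : Ideal R := L.comap (LinearMap.toSpanSingleton R V x)

theorem mem_den {x : V} {r : R} : r ∈ den L x ↔ r • x ∈ L := by
  simp [den]

theorem relIndex_span_singleton (x : V) :
    L.toAddSubgroup.relIndex (Submodule.span R {x}).toAddSubgroup =
      (den L x).toAddSubgroup.index := by
  have h := AddSubgroup.index_comap L.toAddSubgroup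
    (LinearMap.toSpanSingleton R V x).toAddMonoidHom
  have h2 : (LinearMap.toSpanSingleton R V x).toAddMonoidHom.range =
      (Submodule.span R {x}).toAddSubgroup := by
    ext y
    simp [Submodule.mem_span_singleton]
  rw [h2] at h
  rw [← h]
  rfl

theorem EuclideanLattice.den_ne_bot (h : EuclideanLattice Q L) (x : V) : den L x ≠ ⊥ := by
  obtain ⟨d, hd, hdx⟩ := h.torsion x
  intro hbot
  have : d ∈ den L x := mem_den.2 hdx
  rw [hbot] at this
  exact hd (by simpa using this)

theorem EuclideanLattice.relIndex_ne_zero (h : EuclideanLattice Q L) {M : Submodule R V}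
    (hM : M.FG) : L.toAddSubgroup.relIndex M.toAddSubgroup ≠ 0 := by
  induction M, hM using Submodule.fg_induction with
  | singleton x =>
    rw [relIndex_span_singleton]
    exact index_ne_zero h.fin (h.den_ne_bot x)
  | sup A B _ _ hA hB =>
    intro h0
    have h1 : L.toAddSubgroup.relIndex (L ⊔ A).toAddSubgroup ≠ 0 := by
      have : (L ⊔ A).toAddSubgroup = A.toAddSubgroup ⊔ L.toAddSubgroup := by
        rw [sup_comm, Submodule.sup_toAddSubgroup]
      rw [this, AddSubgroup.relIndex_sup_right]
      exact hA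
    have h2 : (L ⊔ A).toAddSubgroup.relIndex (L ⊔ A ⊔ B).toAddSubgroup ≠ 0 := by
      have : (L ⊔ A ⊔ B).toAddSubgroup = B.toAddSubgroup ⊔ (L ⊔ A).toAddSubgroup := by
        rw [sup_comm (L ⊔ A) B, Submodule.sup_toAddSubgroup B]
      rw [this, AddSubgroup.relIndex_sup_right]
      intro h3
      exact hB (AddSubgroup.relIndex_eq_zero_of_le_left
        (Submodule.toAddSubgroup_mono le_sup_left) h3)
    have h3 := AddSubgroup.relIndex_ne_zero_trans h1 h2
    refine h3 (AddSubgroup.relIndex_eq_zero_of_le_right (Submodule.toAddSubgroup_mono ?_) h0)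
    rw [sup_assoc]
    exact le_sup_right

theorem relIndex_comap_sub (A N : Submodule R V) (f : V →ₗ[R] V) :
    (A.comap f).toAddSubgroup.relIndex N.toAddSubgroup =
      A.toAddSubgroup.relIndex (N.map f).toAddSubgroup :=
  AddSubgroup.relIndex_comap A.toAddSubgroup f.toAddMonoidHom N.toAddSubgroup

theorem inf_toAddSubgroup' (A N : Submodule R V) :
    (A ⊓ N).toAddSubgroup = A.toAddSubgroup ⊓ N.toAddSubgroup := by
  ext x
  simp

theorem relIndex_inf_sub (A N : Submodule R V) :
    (A ⊓ N).toAddSubgroup.relIndex N.toAddSubgroup = A.toAddSubgroup.relIndex N.toAddSubgroup := by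
  rw [inf_toAddSubgroup', AddSubgroup.inf_relIndex_right]

theorem relIndex_mul_sub {A N M : Submodule R V} (hAN : A ⊓ M ≤ N) (hNM : N ≤ M) :
    A.toAddSubgroup.relIndex N.toAddSubgroup * N.toAddSubgroup.relIndex M.toAddSubgroup =
      A.toAddSubgroup.relIndex M.toAddSubgroup := by
  have e1 : (A ⊓ M).toAddSubgroup.relIndex N.toAddSubgroup *
      N.toAddSubgroup.relIndex M.toAddSubgroup = (A ⊓ M).toAddSubgroup.relIndex
        M.toAddSubgroup :=
    AddSubgroup.relIndex_mul_relIndex _ _ _ (Submodule.toAddSubgroup_mono hAN)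
      (Submodule.toAddSubgroup_mono hNM)
  have e4 : A ⊓ M ⊓ N = A ⊓ N := by
    rw [inf_assoc, inf_eq_right.2 hNM]
  rw [relIndex_inf_sub, ← relIndex_inf_sub (A ⊓ M), e4, relIndex_inf_sub] at e1
  exact e1

theorem relIndex_le_sub {A N M : Submodule R V} (hNM : N ≤ M)
    (hA : A.toAddSubgroup.relIndex N.toAddSubgroup ≠ 0)
    (hN : N.toAddSubgroup.relIndex M.toAddSubgroup ≠ 0) :
    A.toAddSubgroup.relIndex M.toAddSubgroup ≤
      A.toAddSubgroup.relIndex N.toAddSubgroup * N.toAddSubgroup.relIndex M.toAddSubgroup := by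
  have h2 : (A ⊓ N).toAddSubgroup.relIndex N.toAddSubgroup ≠ 0 := by
    rw [relIndex_inf_sub]
    exact hA
  have h0 := AddSubgroup.relIndex_ne_zero_trans h2 hN
  have h1 := AddSubgroup.relIndex_le_of_le_left
    (Submodule.toAddSubgroup_mono (inf_le_left : A ⊓ N ≤ A)) h0
  rw [← relIndex_mul_sub (A := A ⊓ N) (inf_le_left.trans inf_le_right) hNM, relIndex_inf_sub] at h1
  exact h1

theorem relIndex_sup_span (u : V) :
    L.toAddSubgroup.relIndex (L ⊔ Submodule.span R {u}).toAddSubgroup =
      (den L u).toAddSubgroup.index := by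
  rw [← relIndex_span_singleton, sup_comm, Submodule.sup_toAddSubgroup,
    AddSubgroup.relIndex_sup_right]

/-- One descent step. -/
theorem EuclideanLattice.step (h : EuclideanLattice Q L) {M : Submodule R V} (hM : M.FG)
    (hMint : IntegralOn Q M) (hML : ¬ M ≤ L) :
    ∃ σ : V ≃ₗ[K] V, (∀ z, Q (σ z) = Q z) ∧
      L.toAddSubgroup.relIndex (M.map (σ.restrictScalars R).toLinearMap).toAddSubgroup <
        L.toAddSubgroup.relIndex M.toAddSubgroup := by
  obtain ⟨x, hxM, hxL⟩ := SetLike.not_le_iff_exists.1 hML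
  obtain ⟨y, hyL, hlt⟩ := h.euclid x
  obtain ⟨v, hv⟩ : ∃ v, v = x - y := ⟨_, rfl⟩
  rw [← hv] at hlt
  have hv0 : v ≠ 0 := by
    intro h0
    rw [hv, sub_eq_zero] at h0
    exact hxL (h0 ▸ hyL)
  have hQv : Q v ≠ 0 := fun h0 => hv0 (h.aniso _ h0)
  set σ := refl Q v hQv with hσ
  refine ⟨σ, refl_isometry Q v hQv, ?_⟩
  set u : V := (Q v)⁻¹ • v with hu
  -- the images
  set N1 : Submodule R V := (M ⊓ L) ⊔ Submodule.span R {x} with hN1
  have hN1M : N1 ≤ M := sup_le inf_le_left (by
    rw [Submodule.span_singleton_le_iff_mem]; exact hxM)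
  have hx1 : x ∈ N1 := Submodule.mem_sup_right (Submodule.mem_span_singleton_self x)
  obtain ⟨qx, hqx⟩ := hMint x hxM
  obtain ⟨qy, hqy⟩ := h.integral y hyL
  -- first: the image of `N1` under `σ` lies in `L + R u`
  have himg : N1.map (σ.restrictScalars R).toLinearMap ≤ L ⊔ Submodule.span R {u} := by
    rw [hN1, Submodule.map_sup, sup_le_iff]
    constructor
    · rintro _ ⟨z, ⟨hzM, hzL⟩, rfl⟩
      obtain ⟨b1, hb1⟩ := hMint.polar hxM hzM
      obtain ⟨b2, hb2⟩ := h.integral.polar hyL hzL
      have hb : QuadraticMap.polar Q v z = algebraMap R K (b1 - b2) := by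
        rw [hv, QuadraticMap.polar_sub_left, hb1, hb2, map_sub]
      have : σ z = z + (-(b1 - b2)) • u := by
        rw [hσ, refl_apply, hb, hu, ← algebraMap_smul K (-(b1 - b2)), smul_smul, map_neg,
          neg_mul, neg_smul, mul_comm, sub_eq_add_neg]
      show σ z ∈ _
      rw [this]
      exact Submodule.add_mem_sup hzL (Submodule.smul_mem _ _ (Submodule.mem_span_singleton_self u))
    · rw [Submodule.map_span, Set.image_singleton, Submodule.span_singleton_le_iff_mem]
      have hpol : QuadraticMap.polar Q v x = Q x + Q v - Q y := by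
        have hy' : y = x - v := by rw [hv]; abel
        rw [hy', sub_eq_add_neg x v, QuadraticMap.map_add (Q : V → K), QuadraticMap.map_neg,
          QuadraticMap.polar_neg_right, QuadraticMap.polar_comm Q x v]
        ring
      have : σ x = y + (-(qx - qy)) • u := by
        rw [hσ, refl_apply, hpol, hqx, hqy, hu, ← algebraMap_smul K (-(qx - qy)), smul_smul,
          map_neg, map_sub (algebraMap R K)]
        have h1 : (Q v)⁻¹ * (algebraMap R K qx + Q v - algebraMap R K qy) =
            1 - (-(algebraMap R K qx - algebraMap R K qy) * (Q v)⁻¹) := by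
          field_simp
          ring
        have h2 : x - v = y := by rw [hv]; abel
        rw [h1, sub_smul, one_smul, ← h2]
        abel
      show σ x ∈ _
      rw [this]
      exact Submodule.add_mem_sup hyL (Submodule.smul_mem _ _ (Submodule.mem_span_singleton_self u))
  -- indices
  set t : Ideal R := den L x with ht
  have htv : ∀ s, s ∈ t ↔ s • v ∈ L := by
    intro s
    rw [ht, mem_den, hv, smul_sub, sub_eq_add_neg,
      Submodule.add_mem_iff_left _ (L.neg_mem (L.smul_mem _ hyL))]
  obtain ⟨a, b, hb, hab, habn⟩ := hlt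
  have hb' : algebraMap R K b ≠ 0 := by simpa using hb
  have ha : a ≠ 0 := by
    rintro rfl
    apply hQv
    rw [hab]
    simp
  -- `Q v * s` is in `R` for `s ∈ t`
  have hQt : ∀ s ∈ t, ∃ r : R, algebraMap R K r = Q v * algebraMap R K s := by
    intro s hs
    have hsL : s • x ∈ L := mem_den.1 hs
    obtain ⟨c, hc⟩ := h.integral.polar hsL hyL
    refine ⟨s * qx + s * qy - c, ?_⟩
    have hc' : QuadraticMap.polar Q x y * algebraMap R K s = algebraMap R K c := by
      rw [← hc, ← algebraMap_smul K s x, QuadraticMap.polar_smul_left, smul_eq_mul, mul_comm]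
    have hqv : Q v = Q x + Q y - QuadraticMap.polar Q x y := by
      rw [hv, sub_eq_add_neg, QuadraticMap.map_add (Q : V → K), QuadraticMap.map_neg,
        QuadraticMap.polar_neg_right]
      ring
    rw [hqv, sub_mul, hc', hqx, hqy]
    simp only [map_sub, map_add, map_mul]
    ring
  -- the additive subgroup `Q v * t` of `R`
  let t' : AddSubgroup R :=
    { carrier := {r | ∃ s ∈ t, algebraMap R K r = Q v * algebraMap R K s}
      zero_mem' := ⟨0, t.zero_mem, by simp⟩
      add_mem' := by
        rintro r r' ⟨s, hs, e⟩ ⟨s', hs', e'⟩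
        exact ⟨s + s', t.add_mem hs hs', by rw [map_add, map_add, e, e']; ring⟩
      neg_mem' := by
        rintro r ⟨s, hs, e⟩
        exact ⟨-s, t.neg_mem hs, by rw [map_neg, map_neg, e]; ring⟩ }
  have hmt' : ∀ r, r ∈ t' ↔ ∃ s ∈ t, algebraMap R K r = Q v * algebraMap R K s := fun r => Iff.rfl
  have hbt' : t'.map (AddMonoidHom.mulLeft b) = t.toAddSubgroup.map (AddMonoidHom.mulLeft a) := by
    ext r
    simp only [AddSubgroup.mem_map, AddMonoidHom.coe_mulLeft, Submodule.mem_toAddSubgroup]
    constructor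
    · rintro ⟨r', hr', rfl⟩
      obtain ⟨s, hs, e⟩ := (hmt' _).1 hr'
      refine ⟨s, hs, ?_⟩
      apply IsFractionRing.injective R K
      rw [map_mul, map_mul, e, hab]
      field_simp
    · rintro ⟨s, hs, rfl⟩
      obtain ⟨r, hr⟩ := hQt s hs
      refine ⟨r, (hmt' _).2 ⟨s, hs, hr⟩, ?_⟩
      apply IsFractionRing.injective R K
      rw [map_mul, map_mul, hr, hab]
      field_simp
  have hidx : t'.index * normR b = t.toAddSubgroup.index * normR a := by
    rw [← index_map_mul hb, ← index_map_mul ha, hbt']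
  have htpos : 0 < t.toAddSubgroup.index :=
    Nat.pos_of_ne_zero (index_ne_zero h.fin (h.den_ne_bot x))
  have hapos := normR_pos h.fin ha
  have ht'lt : t'.index < t.toAddSubgroup.index := by
    by_contra hcon
    push Not at hcon
    nlinarith
  have ht'ne : t'.index ≠ 0 := by
    intro h0
    rw [h0, zero_mul] at hidx
    have := Nat.mul_pos htpos hapos
    omega
  have hden : t' ≤ (den L u).toAddSubgroup := by
    intro r hr
    obtain ⟨s, hs, e⟩ := (hmt' _).1 hr
    show r ∈ den L u
    rw [mem_den, hu, ← algebraMap_smul K r, smul_smul, e, mul_right_comm, mul_inv_cancel₀ hQv,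
      one_mul, algebraMap_smul, ← htv]
    exact hs
  have hden_lt : (den L u).toAddSubgroup.index < t.toAddSubgroup.index :=
    lt_of_le_of_lt (Nat.le_of_dvd (Nat.pos_of_ne_zero ht'ne)
      (AddSubgroup.index_dvd_of_le hden)) ht'lt
  have hden_ne : (den L u).toAddSubgroup.index ≠ 0 := index_ne_zero h.fin (h.den_ne_bot u)
  -- relative index of `L` in `N1`
  have hLN1 : L.toAddSubgroup.relIndex N1.toAddSubgroup = t.toAddSubgroup.index := by
    rw [ht, ← relIndex_span_singleton, ← AddSubgroup.relIndex_sup_right,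
      ← AddSubgroup.relIndex_sup_right (Submodule.span R {x}).toAddSubgroup]
    congr 1
    rw [← Submodule.sup_toAddSubgroup, ← Submodule.sup_toAddSubgroup]
    congr 1
    rw [hN1, sup_right_comm, sup_eq_right.2 (inf_le_right : M ⊓ L ≤ L), sup_comm]
  have hM0 : L.toAddSubgroup.relIndex M.toAddSubgroup ≠ 0 := h.relIndex_ne_zero hM
  have hML := relIndex_mul_sub (A := L) (N := N1) (M := M)
    (by rw [inf_comm]; exact le_sup_left) hN1M
  have hN1ne : N1.toAddSubgroup.relIndex M.toAddSubgroup ≠ 0 := by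
    intro h0
    rw [h0, mul_zero] at hML
    exact hM0 hML.symm
  -- relative index of `L` in the image of `N1`
  set f := (σ.restrictScalars R).toLinearMap with hf
  have hfN1 : L.toAddSubgroup.relIndex (N1.map f).toAddSubgroup ≠ 0 := by
    intro h2
    apply hden_ne
    rw [← relIndex_sup_span]
    exact AddSubgroup.relIndex_eq_zero_of_le_right (Submodule.toAddSubgroup_mono himg) h2
  have hfN1lt : L.toAddSubgroup.relIndex (N1.map f).toAddSubgroup < t.toAddSubgroup.index := by
    refine lt_of_le_of_lt (AddSubgroup.relIndex_le_of_le_right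
      (Submodule.toAddSubgroup_mono himg) ?_) ?_
    · rw [relIndex_sup_span]
      exact hden_ne
    · rw [relIndex_sup_span]
      exact hden_lt
  rw [← relIndex_comap_sub] at hfN1 hfN1lt ⊢
  have hle := relIndex_le_sub hN1M hfN1 hN1ne
  rw [← hML, hLN1]
  exact lt_of_le_of_lt hle (Nat.mul_lt_mul_of_pos_right hfN1lt (Nat.pos_of_ne_zero hN1ne))

/-- The descent: every finitely generated integral submodule can be moved into `L` by an
isometry of the quadratic space. -/
theorem EuclideanLattice.descent (h : EuclideanLattice Q L) {M : Submodule R V} (hM : M.FG)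
    (hMint : IntegralOn Q M) :
    ∃ σ : V ≃ₗ[K] V, (∀ z, Q (σ z) = Q z) ∧ M.map (σ.restrictScalars R).toLinearMap ≤ L := by
  induction hk : L.toAddSubgroup.relIndex M.toAddSubgroup using Nat.strong_induction_on
    generalizing M with
  | _ k ih =>
  by_cases hML : M ≤ L
  · refine ⟨LinearEquiv.refl K V, fun _ => rfl, ?_⟩
    rintro _ ⟨z, hz, rfl⟩
    exact hML hz
  · obtain ⟨σ, hσ, hlt⟩ := h.step hM hMint hML
    have hM' : (M.map (σ.restrictScalars R).toLinearMap).FG := hM.map _
    have hMint' : IntegralOn Q (M.map (σ.restrictScalars R).toLinearMap) := by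
      rintro _ ⟨z, hz, rfl⟩
      obtain ⟨r, hr⟩ := hMint z hz
      exact ⟨r, by rw [← hr]; exact hσ z⟩
    obtain ⟨τ, hτ, hle⟩ := ih _ (hk ▸ hlt) hM' hMint' rfl
    refine ⟨σ.trans τ, fun z => ?_, ?_⟩
    · rw [LinearEquiv.trans_apply, hτ, hσ]
    · rintro _ ⟨z, hz, rfl⟩
      exact hle ⟨σ z, ⟨z, hz, rfl⟩, rfl⟩

end Descent

end Pool.Agent.Lib.MP_14e93c_nt
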