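import Pool.Agent.Lib.MP_14e93c_nt.Descent

/-!
Local-global tools.
-/

set_option linter.unusedSectionVars false

namespace Pool.Agent.Lib.MP_14e93c_nt

open IsDedekindDomain HeightOneSpectrum WithZero

section Approx

variable {R K : Type*} [CommRing R] [IsDedekindDomain R] [Field K] [Algebra R K]
  [IsFractionRing R K]

theorem exists_approx_field (v : HeightOneSpectrum R) (y : K) :
    ∃ x : K, v.valuation K (y - x) ≤ 1 ∧
      ∀ w : HeightOneSpectrum R, w ≠ v → w.valuation K x ≤ 1 := by
  obtain ⟨a, b, hb, rfl⟩ := IsFractionRing.div_surjective (A := R) y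
  have hb0 : b ≠ 0 := nonZeroDivisors.ne_zero hb
  have hbK : algebraMap R K b ≠ 0 := by simpa using hb0
  have hspan : (Ideal.span {b} : Ideal R) ≠ 0 := by simpa using hb0
  have hfm : FiniteMultiplicity v.asIdeal (Ideal.span {b}) :=
    FiniteMultiplicity.of_prime_left v.prime hspan
  obtain ⟨J, hJ, hvJ⟩ := hfm.exists_eq_pow_mul_and_not_dvd
  set m := multiplicity v.asIdeal (Ideal.span {b}) with hm
  have hcop : v.asIdeal ^ m ⊔ J = ⊤ := by
    have h1 : v.asIdeal ⊔ J = ⊤ := by
      have hmax : v.asIdeal.IsMaximal := v.isMaximal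
      rw [sup_comm]
      by_contra hcon
      apply hvJ
      rw [Ideal.dvd_iff_le]
      have := hmax.eq_of_le hcon le_sup_right
      rw [this]
      exact le_sup_left
    rw [← Ideal.isCoprime_iff_sup_eq] at h1 ⊢
    exact h1.pow_left
  obtain ⟨p, hp, q, hq, hpq⟩ := Submodule.mem_sup.1 (show a ∈ v.asIdeal ^ m ⊔ J by
    rw [hcop]; trivial)
  refine ⟨algebraMap R K q / algebraMap R K b, ?_, ?_⟩
  · have : algebraMap R K a / algebraMap R K b - algebraMap R K q / algebraMap R K b =
        algebraMap R K p / algebraMap R K b := by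
      rw [← hpq, map_add]
      ring
    rw [this, map_div₀, valuation_of_algebraMap, valuation_of_algebraMap,
      intValuation_eq_exp_neg_multiplicity v hb0, ← hm]
    have h1 := (v.intValuation_le_pow_iff_mem p m).2 hp
    rwa [div_le_one₀ (by simp)]
  · intro w hw
    rw [map_div₀, valuation_of_algebraMap, valuation_of_algebraMap,
      intValuation_eq_exp_neg_multiplicity w hb0]
    rw [div_le_one₀ (by simp)]
    rw [w.intValuation_le_pow_iff_mem]
    have hd : w.asIdeal ^ multiplicity w.asIdeal (Ideal.span {b}) ∣ v.asIdeal ^ m * J := by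
      rw [← hJ]
      exact pow_multiplicity_dvd _ _
    have hcop2 : IsCoprime (w.asIdeal ^ multiplicity w.asIdeal (Ideal.span {b}))
        (v.asIdeal ^ m) := by
      apply IsCoprime.pow
      rw [Ideal.isCoprime_iff_sup_eq]
      have hmaxv : v.asIdeal.IsMaximal := v.isMaximal
      have hmaxw : w.asIdeal.IsMaximal := w.isMaximal
      exact hmaxw.coprime_of_ne hmaxv (fun h => hw (HeightOneSpectrum.ext h))
    have := hcop2.dvd_of_dvd_mul_left hd
    exact Ideal.dvd_iff_le.1 this hq

theorem exists_sub_mem (v : HeightOneSpectrum R) (z : v.adicCompletion K) :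
    ∃ y : K, z - algebraMap K (v.adicCompletion K) y ∈ v.adicCompletionIntegers K := by
  have hopen : IsOpen {z' : v.adicCompletion K | z - z' ∈ v.adicCompletionIntegers K} := by
    have h1 : IsOpen (v.adicCompletionIntegers K : Set (v.adicCompletion K)) :=
      Valued.isOpen_valuationSubring (v.adicCompletion K)
    exact h1.preimage (continuous_const.sub continuous_id)
  obtain ⟨y, hy⟩ := (denseRange_algebraMap K v).exists_mem_open hopen
    ⟨z, by simp [ZeroMemClass.zero_mem]⟩
  exact ⟨y, hy⟩

theorem valued_algebraMap (v : HeightOneSpectrum R) (y : K) :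
    Valued.v (algebraMap K (v.adicCompletion K) y) = v.valuation K y :=
  valuedAdicCompletion_eq_valuation' v y

theorem algebraMap_mem_iff (v : HeightOneSpectrum R) (y : K) :
    algebraMap K (v.adicCompletion K) y ∈ v.adicCompletionIntegers K ↔ v.valuation K y ≤ 1 := by
  rw [mem_adicCompletionIntegers, valued_algebraMap]

theorem exists_approx_completion (v : HeightOneSpectrum R) (z : v.adicCompletion K) :
    ∃ x : K, z - algebraMap K (v.adicCompletion K) x ∈ v.adicCompletionIntegers K ∧
      ∀ w : HeightOneSpectrum R, w ≠ v → w.valuation K x ≤ 1 := by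
  obtain ⟨y, hy⟩ := exists_sub_mem v z
  obtain ⟨x, hx, hx'⟩ := exists_approx_field v y
  refine ⟨x, ?_, hx'⟩
  have : z - algebraMap K (v.adicCompletion K) x =
      (z - algebraMap K (v.adicCompletion K) y) + algebraMap K (v.adicCompletion K) (y - x) := by
    rw [map_sub]; ring
  rw [this]
  exact add_mem hy ((algebraMap_mem_iff v _).2 hx)

/-- `R` is dense in the completed local ring. -/
theorem exists_int_approx (v : HeightOneSpectrum R) (r : v.adicCompletion K)
    (hr : r ∈ v.adicCompletionIntegers K) {c : R} (hc : c ≠ 0) :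
    ∃ s : R, Valued.v (r - algebraMap K (v.adicCompletion K) (algebraMap R K s)) ≤
      v.intValuation c := by
  have hc' : algebraMap R K c ≠ 0 := by simpa using hc
  have hcv : algebraMap K (v.adicCompletion K) (algebraMap R K c) ≠ 0 := by simpa using hc
  obtain ⟨y, hy⟩ := exists_sub_mem v (r / algebraMap K (v.adicCompletion K) (algebraMap R K c))
  -- `y * c` approximates `r`
  have h1 : Valued.v (r - algebraMap K (v.adicCompletion K) (y * algebraMap R K c)) ≤
      v.intValuation c := by
    have : r - algebraMap K (v.adicCompletion K) (y * algebraMap R K c) =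
        (r / algebraMap K (v.adicCompletion K) (algebraMap R K c) -
          algebraMap K (v.adicCompletion K) y) *
          algebraMap K (v.adicCompletion K) (algebraMap R K c) := by
      rw [map_mul]
      field_simp
    rw [this, map_mul, valued_algebraMap, valuation_of_algebraMap]
    rw [mem_adicCompletionIntegers] at hy
    calc _ ≤ 1 * v.intValuation c := by gcongr
      _ = _ := one_mul _
  have h2 : v.valuation K (y * algebraMap R K c) ≤ 1 := by
    rw [← algebraMap_mem_iff]
    have : algebraMap K (v.adicCompletion K) (y * algebraMap R K c) =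
        r - (r - algebraMap K (v.adicCompletion K) (y * algebraMap R K c)) := by ring
    rw [this]
    refine sub_mem hr ?_
    rw [mem_adicCompletionIntegers]
    exact h1.trans (v.intValuation_le_one c)
  obtain ⟨s, hs⟩ := exists_valuation_sub_lt_of_integer v h2
    (Units.mk0 (v.intValuation c) (v.intValuation_ne_zero c hc))
  refine ⟨s, ?_⟩
  have : r - algebraMap K (v.adicCompletion K) (algebraMap R K s) =
      (r - algebraMap K (v.adicCompletion K) (y * algebraMap R K c)) -
        algebraMap K (v.adicCompletion K) (algebraMap R K s - y * algebraMap R K c) := by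
    rw [map_sub]; ring
  rw [this]
  refine (Valuation.map_sub _ _ _).trans (max_le h1 ?_)
  rw [valued_algebraMap]
  exact hs.le

end Approx

end Pool.Agent.Lib.MP_14e93c_nt
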