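import Pool.Agent.Lib.MP_14e93c_nt.Local

/-!
Proof that an anisotropic Euclidean form has class number one.
-/

set_option linter.unusedSectionVars false

namespace Pool.Agent.Lib.MP_14e93c_nt

open IsDedekindDomain HeightOneSpectrum

section Form

variable {R : Type*} [CommRing R] {n : ℕ} (a : Matrix (Fin n) (Fin n) R)
  (F : Type*) [CommRing F] [Algebra R F]

/-- The form as a quadratic form of the library. -/
noncomputable def Qf : QuadraticForm F (Fin n → F) :=
  LinearMap.BilinMap.toQuadraticMap (Matrix.toBilin' (a.map (algebraMap R F)))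

theorem Qf_apply (x : Fin n → F) : Qf a F x = qf a F x := by
  simp only [Qf, LinearMap.BilinMap.toQuadraticMap_apply, Matrix.toBilin'_apply, Matrix.map_apply,
    qf]
  exact Finset.sum_congr rfl fun i _ => Finset.sum_congr rfl fun j _ => by ring

theorem Qf_mem (S : Subring F) (hS : ∀ r : R, algebraMap R F r ∈ S) {x : Fin n → F}
    (hx : ∀ i, x i ∈ S) : Qf a F x ∈ S := by
  rw [Qf_apply, qf]
  exact S.sum_mem fun i _ => S.sum_mem fun j _ => S.mul_mem (S.mul_mem (hS _) (hx i)) (hx j)

theorem polar_mem (S : Subring F) (hS : ∀ r : R, algebraMap R F r ∈ S) {x y : Fin n → F}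
    (hx : ∀ i, x i ∈ S) (hy : ∀ i, y i ∈ S) : QuadraticMap.polar (Qf a F) x y ∈ S := by
  rw [QuadraticMap.polar]
  refine S.sub_mem (S.sub_mem (Qf_mem a F S hS fun i => ?_) (Qf_mem a F S hS hx))
    (Qf_mem a F S hS hy)
  exact S.add_mem (hx i) (hy i)

theorem Qf_map {G : Type*} [CommRing G] [Algebra R G] [Algebra F G] [IsScalarTower R F G]
    (x : Fin n → F) :
    Qf a G (fun i => algebraMap F G (x i)) = algebraMap F G (Qf a F x) := by
  rw [Qf_apply, Qf_apply, qf, qf, map_sum]
  refine Finset.sum_congr rfl fun i _ => ?_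
  rw [map_sum]
  refine Finset.sum_congr rfl fun j _ => ?_
  rw [map_mul, map_mul, ← IsScalarTower.algebraMap_apply]

theorem polar_map {G : Type*} [CommRing G] [Algebra R G] [Algebra F G] [IsScalarTower R F G]
    (x y : Fin n → F) :
    QuadraticMap.polar (Qf a G) (fun i => algebraMap F G (x i)) (fun i => algebraMap F G (y i)) =
      algebraMap F G (QuadraticMap.polar (Qf a F) x y) := by
  have h : (fun i => algebraMap F G (x i)) + (fun i => algebraMap F G (y i)) =
      fun i => algebraMap F G ((x + y) i) := by
    ext i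
    simp
  rw [QuadraticMap.polar, h, Qf_map, Qf_map, Qf_map, QuadraticMap.polar, map_sub, map_sub]

end Form

section Main

variable {R K : Type*} [CommRing R] [IsDedekindDomain R] [Field K] [Algebra R K]
  [IsFractionRing R K] {n : ℕ} {a : Matrix (Fin n) (Fin n) R}

theorem mem_std {x : Fin n → K} : x ∈ stdLattice R K n ↔ ∀ i, ∃ r : R, x i = algebraMap R K r := by
  constructor
  · rintro ⟨y, rfl⟩ i
    exact ⟨y i, rfl⟩
  · intro h
    choose y hy using h
    exact ⟨y, by ext i; simp [hy i]⟩

theorem exists_common_den (x : Fin n → K) : ∃ d : R, d ≠ 0 ∧ d • x ∈ stdLattice R K n := by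
  obtain ⟨d, hd⟩ := IsLocalization.exist_integer_multiples_of_finite (nonZeroDivisors R) x
  refine ⟨d, nonZeroDivisors.ne_zero d.2, mem_std.2 fun i => ?_⟩
  obtain ⟨r, hr⟩ := hd i
  exact ⟨r, by rw [hr]; rfl⟩

theorem euclideanLattice (hfin : ∀ I : Ideal R, I ≠ ⊥ → Finite (R ⧸ I))
    (hani : IsAnisotropic K a) (heuc : IsEuclidean K a) :
    EuclideanLattice (Qf a K) (stdLattice R K n) where
  fin := hfin
  aniso x hx := by
    funext i
    exact hani x (by rw [← Qf_apply]; exact hx) i
  integral := by
    intro x hx
    have h := Qf_mem a K (algebraMap R K).range (fun r => ⟨r, rfl⟩) (x := x) (fun i => by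
      obtain ⟨r, hr⟩ := mem_std.1 hx i
      exact ⟨r, hr.symm⟩)
    obtain ⟨r, hr⟩ := h
    exact ⟨r, hr.symm⟩
  torsion := exists_common_den
  euclid x := by
    obtain ⟨y, h⟩ := heuc x
    exact ⟨fun i => algebraMap R K (y i), mem_std.2 fun i => ⟨y i, rfl⟩,
      by rw [Qf_apply]; exact h⟩

theorem mem_of_all {x : K} (h : ∀ v : HeightOneSpectrum R, v.valuation K x ≤ 1) :
    ∃ r : R, x = algebraMap R K r := by
  obtain ⟨r, hr⟩ := mem_integers_of_valuation_le_one K x h
  exact ⟨r, hr.symm⟩

theorem algebraMap_mem_int (v : HeightOneSpectrum R) (r : R) :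
    algebraMap R (v.adicCompletion K) r ∈ v.adicCompletionIntegers K := by
  rw [IsScalarTower.algebraMap_apply R K (v.adicCompletion K), algebraMap_mem_iff]
  exact v.valuation_le_one r

/-- The completion of a Euclidean lattice is a maximal integral lattice. -/
theorem local_maximal (h : EuclideanLattice (Qf a K) (stdLattice R K n)) (v : HeightOneSpectrum R)
    (z : Fin n → v.adicCompletion K)
    (hz : Qf a (v.adicCompletion K) z ∈ v.adicCompletionIntegers K)
    (hzl : ∀ l : Fin n → v.adicCompletion K, (∀ i, l i ∈ v.adicCompletionIntegers K) →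
      QuadraticMap.polar (Qf a (v.adicCompletion K)) z l ∈ v.adicCompletionIntegers K) :
    ∀ i, z i ∈ v.adicCompletionIntegers K := by
  choose x hx hx' using fun i => exists_approx_completion v (z i)
  set X : Fin n → v.adicCompletion K := fun i => algebraMap K (v.adicCompletion K) (x i) with hX
  set l : Fin n → v.adicCompletion K := fun i => z i - X i with hl
  have hlint : ∀ i, l i ∈ v.adicCompletionIntegers K := hx
  have hXz : X = z + (-l) := by
    ext i
    simp [hl]
  have hQX : Qf a (v.adicCompletion K) X ∈ v.adicCompletionIntegers K := by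
    rw [hXz, QuadraticMap.map_add (Qf a (v.adicCompletion K)), QuadraticMap.map_neg,
      QuadraticMap.polar_neg_right]
    refine add_mem (add_mem hz ?_) (neg_mem (hzl l hlint))
    exact Qf_mem a _ (v.adicCompletionIntegers K).toSubring (algebraMap_mem_int v) hlint
  have hxint : x ∈ stdLattice R K n := by
    refine h.mem_of_integral ?_ ?_
    · refine mem_of_all fun w => ?_
      by_cases hw : w = v
      · subst hw
        rw [← algebraMap_mem_iff, ← Qf_map]
        exact hQX
      · exact Qf_mem a K (w.valuation K).integer (fun r => w.valuation_le_one r)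
          (fun i => hx' i w hw)
    · intro y hy
      refine mem_of_all fun w => ?_
      have hyw : ∀ i, w.valuation K (y i) ≤ 1 := by
        intro i
        obtain ⟨r, hr⟩ := mem_std.1 hy i
        rw [hr]
        exact w.valuation_le_one r
      by_cases hw : w = v
      · subst hw
        rw [← algebraMap_mem_iff, ← polar_map]
        have hyint : ∀ i, algebraMap K (w.adicCompletion K) (y i) ∈ w.adicCompletionIntegers K :=
          fun i => (algebraMap_mem_iff w _).2 (hyw i)
        show QuadraticMap.polar (Qf a (w.adicCompletion K)) X _ ∈ _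
        rw [hXz, QuadraticMap.polar_add_left, QuadraticMap.polar_neg_left]
        refine add_mem (hzl _ hyint) (neg_mem ?_)
        exact polar_mem a _ (w.adicCompletionIntegers K).toSubring (algebraMap_mem_int w)
          hlint hyint
      · exact polar_mem a K (w.valuation K).integer (fun r => w.valuation_le_one r)
          (fun i => hx' i w hw) hyw
  intro i
  have : z i = l i + X i := by simp [hl]
  rw [this]
  refine add_mem (hlint i) ?_
  rw [hX, algebraMap_mem_iff]
  obtain ⟨r, hr⟩ := mem_std.1 hxint i
  rw [hr]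
  exact v.valuation_le_one r

section Isometry

variable {A V F : Type*} [CommRing A] [AddCommGroup V] [Module A V] {q : V → F}
  {M N : Submodule A V}

theorem IsometricFor.exists_equiv (h : IsometricFor q M N) :
    ∃ e : M ≃ₗ[A] N, ∀ x : M, q (e x) = q x := by
  obtain ⟨f, hbij, hadd, hsmul, hq⟩ := h
  let g : M →ₗ[A] N :=
    { toFun := fun x => ⟨f x, hbij.mapsTo x.2⟩
      map_add' := fun x y => Subtype.ext (hadd x x.2 y y.2)
      map_smul' := fun c x => Subtype.ext (hsmul c x x.2) }
  refine ⟨LinearEquiv.ofBijective g ⟨?_, ?_⟩, fun x => hq x x.2⟩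
  · intro x y hxy
    exact Subtype.ext (hbij.injOn x.2 y.2 (congrArg Subtype.val hxy))
  · intro y
    obtain ⟨x, hx, hxy⟩ := hbij.surjOn y.2
    exact ⟨⟨x, hx⟩, Subtype.ext hxy⟩

theorem isometricFor_of_equiv (σ : V ≃ₗ[A] V) (hσ : ∀ x, q (σ x) = q x)
    (hMN : M.map σ.toLinearMap = N) : IsometricFor q M N := by
  refine ⟨σ, ⟨?_, σ.injective.injOn, ?_⟩, fun x _ y _ => map_add σ x y,
    fun c x _ => map_smul σ c x, fun x _ => hσ x⟩
  · intro x hx
    rw [← hMN]
    exact ⟨x, hx, rfl⟩
  · intro y hy
    rw [← hMN] at hy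
    obtain ⟨x, hx, rfl⟩ := hy
    exact ⟨x, hx, rfl⟩

end Isometry

/-- The embedding of `K^n` in `K_v^n`. -/
noncomputable def emb (v : HeightOneSpectrum R) (x : Fin n → K) : Fin n → v.adicCompletion K :=
  fun i => algebraMap K (v.adicCompletion K) (x i)

theorem emb_add (v : HeightOneSpectrum R) (x y : Fin n → K) : emb v (x + y) = emb v x + emb v y := by
  ext i
  simp [emb]

theorem emb_sub (v : HeightOneSpectrum R) (x y : Fin n → K) : emb v (x - y) = emb v x - emb v y := by
  ext i
  simp [emb]

theorem emb_smul (v : HeightOneSpectrum R) (r : R) (x : Fin n → K) :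
    emb v (r • x) = (algebraMap R (v.adicCompletion K) r) • emb v x := by
  ext i
  simp [emb, Algebra.smul_def, IsScalarTower.algebraMap_apply R K (v.adicCompletion K)]

theorem emb_mem {v : HeightOneSpectrum R} {M : Submodule R (Fin n → K)} {x : Fin n → K}
    (hx : x ∈ M) : emb v x ∈ completeAt v M :=
  Submodule.subset_span ⟨x, hx, rfl⟩

theorem completeAt_mono {v : HeightOneSpectrum R} {M N : Submodule R (Fin n → K)} (h : M ≤ N) :
    completeAt v M ≤ completeAt v N :=
  Submodule.span_mono (Set.image_mono h)

theorem mem_completeAt_std {v : HeightOneSpectrum R} {z : Fin n → v.adicCompletion K} :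
    z ∈ completeAt v (stdLattice R K n) ↔ ∀ i, z i ∈ v.adicCompletionIntegers K := by
  constructor
  · intro hz i
    induction hz using Submodule.span_induction with
    | mem x hx =>
      obtain ⟨y, hy, rfl⟩ := hx
      obtain ⟨r, hr⟩ := mem_std.1 hy i
      show algebraMap K (v.adicCompletion K) (y i) ∈ _
      rw [hr, algebraMap_mem_iff]
      exact v.valuation_le_one r
    | zero => exact zero_mem _
    | add x y _ _ hx hy => exact add_mem hx hy
    | smul r x _ hx => exact mul_mem r.2 hx
  · intro hz
    have h1 : z = ∑ i, (⟨z i, hz i⟩ : v.adicCompletionIntegers K) •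
        emb v (Pi.single i (1 : K)) := by
      funext j
      rw [Finset.sum_apply, Finset.sum_eq_single j]
      · show z j = z j * algebraMap K (v.adicCompletion K) ((Pi.single j (1 : K) : Fin n → K) j)
        simp
      · intro i _ hij
        show z i * algebraMap K (v.adicCompletion K) ((Pi.single i (1 : K) : Fin n → K) j) = 0
        rw [Pi.single_eq_of_ne hij.symm, map_zero, mul_zero]
      · intro hj
        exact absurd (Finset.mem_univ j) hj
    rw [h1]
    refine Submodule.sum_mem _ fun i _ => Submodule.smul_mem _ _ (emb_mem (mem_std.2 fun j => ?_))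
    by_cases hij : j = i
    · subst hij
      exact ⟨1, by simp⟩
    · exact ⟨0, by simp [hij]⟩

theorem integralOn_of_inGenus {M : Submodule R (Fin n → K)} (hM : InGenus a M) :
    IntegralOn (Qf a K) M := by
  intro x hx
  refine mem_of_all fun v => ?_
  obtain ⟨e, he⟩ := (hM.2 v).exists_equiv
  have h1 := he ⟨emb v x, emb_mem hx⟩
  rw [← algebraMap_mem_iff, ← Qf_map]
  show Qf a (v.adicCompletion K) (emb v x) ∈ _
  rw [Qf_apply, ← h1, ← Qf_apply]
  exact Qf_mem a _ (v.adicCompletionIntegers K).toSubring (algebraMap_mem_int v)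
    (mem_completeAt_std.1 (e ⟨emb v x, emb_mem hx⟩).2)

/-- `M` is dense in its completion. -/
theorem exists_approx_lattice {v : HeightOneSpectrum R} {M : Submodule R (Fin n → K)}
    {z : Fin n → v.adicCompletion K} (hz : z ∈ completeAt v M) :
    ∀ c : R, c ≠ 0 → ∃ m ∈ M, ∀ i, Valued.v (z i - emb v m i) ≤ v.intValuation c := by
  induction hz using Submodule.span_induction with
  | mem x hx =>
    obtain ⟨y, hy, rfl⟩ := hx
    intro c _
    refine ⟨y, hy, fun i => ?_⟩
    have : algebraMap K (v.adicCompletion K) (y i) - emb v y i = 0 := by simp [emb]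
    show Valued.v (algebraMap K (v.adicCompletion K) (y i) - emb v y i) ≤ _
    rw [this, map_zero]
    exact zero_le
  | zero =>
    intro c _
    refine ⟨0, M.zero_mem, fun i => ?_⟩
    simp [emb]
  | add x y _ _ hx hy =>
    intro c hc
    obtain ⟨m, hm, h1⟩ := hx c hc
    obtain ⟨m', hm', h2⟩ := hy c hc
    refine ⟨m + m', M.add_mem hm hm', fun i => ?_⟩
    have : (x + y) i - emb v (m + m') i = (x i - emb v m i) + (y i - emb v m' i) := by
      rw [emb_add]
      simp only [Pi.add_apply]
      ring
    rw [this]
    exact (Valuation.map_add _ _ _).trans (max_le (h1 i) (h2 i))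
  | smul r x _ hx =>
    intro c hc
    obtain ⟨m, hm, h1⟩ := hx c hc
    obtain ⟨d, hd, hdm⟩ := exists_common_den (R := R) m
    have hr : (r : v.adicCompletion K) ∈ v.adicCompletionIntegers K := r.2
    obtain ⟨s, hs⟩ := exists_int_approx v (r : v.adicCompletion K) hr (mul_ne_zero hc hd)
    refine ⟨s • m, M.smul_mem _ hm, fun i => ?_⟩
    have : (r • x) i - emb v (s • m) i = (r : v.adicCompletion K) * (x i - emb v m i) +
        ((r : v.adicCompletion K) - algebraMap K (v.adicCompletion K) (algebraMap R K s)) *
          emb v m i := by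
      rw [emb_smul]
      simp only [Pi.smul_apply, smul_eq_mul]
      rw [IsScalarTower.algebraMap_apply R K (v.adicCompletion K)]
      show (r : v.adicCompletion K) * x i - _ = _
      ring
    rw [this]
    refine (Valuation.map_add _ _ _).trans (max_le ?_ ?_)
    · rw [map_mul]
      have hr : Valued.v (r : v.adicCompletion K) ≤ 1 := r.2
      calc _ ≤ 1 * v.intValuation c := by gcongr; exact h1 i
        _ = _ := one_mul _
    · obtain ⟨t, ht⟩ := mem_std.1 hdm i
      have h3 : v.valuation K (algebraMap R K d) * v.valuation K (m i) ≤ 1 := by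
        rw [← map_mul]
        have : algebraMap R K d * m i = (d • m) i := by simp [Algebra.smul_def]
        rw [this, ht]
        exact v.valuation_le_one t
      rw [map_mul]
      calc _ ≤ v.intValuation (c * d) * v.valuation K (m i) := by
            gcongr
            exact (valued_algebraMap v (m i)).le
        _ = v.intValuation c * (v.valuation K (algebraMap R K d) * v.valuation K (m i)) := by
            rw [map_mul, valuation_of_algebraMap, mul_assoc]
        _ ≤ v.intValuation c * 1 := by gcongr
        _ = _ := mul_one _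

theorem exists_smul_mem_of_mem_span {M : Submodule R (Fin n → K)} {x : Fin n → K}
    (hx : x ∈ Submodule.span K (M : Set (Fin n → K))) : ∃ c : R, c ≠ 0 ∧ c • x ∈ M := by
  induction hx using Submodule.span_induction with
  | mem x hx => exact ⟨1, one_ne_zero, by rwa [one_smul]⟩
  | zero => exact ⟨1, one_ne_zero, by rw [smul_zero]; exact M.zero_mem⟩
  | add x y _ _ hx hy =>
    obtain ⟨c, hc, h1⟩ := hx
    obtain ⟨d, hd, h2⟩ := hy
    refine ⟨c * d, mul_ne_zero hc hd, ?_⟩
    rw [smul_add, mul_smul, mul_smul, smul_comm c d x]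
    exact M.add_mem (M.smul_mem _ h1) (M.smul_mem _ h2)
  | smul k x _ hx =>
    obtain ⟨c, hc, h1⟩ := hx
    obtain ⟨p, q, hq, rfl⟩ := IsFractionRing.div_surjective (A := R) k
    have hq0 : q ≠ 0 := nonZeroDivisors.ne_zero hq
    have hqK : algebraMap R K q ≠ 0 := by simpa using hq0
    refine ⟨c * q, mul_ne_zero hc hq0, ?_⟩
    have : (c * q) • (algebraMap R K p / algebraMap R K q) • x = p • c • x := by
      rw [← algebraMap_smul K (c * q), ← algebraMap_smul K p, ← algebraMap_smul K c, smul_smul,
        smul_smul]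
      congr 1
      rw [map_mul]
      field_simp
    rw [this]
    exact M.smul_mem _ h1

theorem exists_smul_std_le {M : Submodule R (Fin n → K)} (hM : Submodule.IsLattice K M) :
    ∃ c : R, c ≠ 0 ∧ ∀ y ∈ stdLattice R K n, c • y ∈ M := by
  have h1 : ∀ i : Fin n, ∃ c : R, c ≠ 0 ∧ c • (Pi.single i (1 : K) : Fin n → K) ∈ M := by
    intro i
    apply exists_smul_mem_of_mem_span
    rw [hM.span_eq_top]
    trivial
  choose c hc0 hc using h1
  refine ⟨∏ i, c i, Finset.prod_ne_zero_iff.2 fun i _ => hc0 i, fun y hy => ?_⟩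
  choose r hr using mem_std.1 hy
  have h2 : (∏ i, c i) • y = ∑ i, (r i * ∏ j ∈ Finset.univ.erase i, c j) • c i •
      (Pi.single i (1 : K) : Fin n → K) := by
    funext j
    rw [Finset.sum_apply, Finset.sum_eq_single j]
    · rw [Pi.smul_apply, Pi.smul_apply, Pi.smul_apply, Pi.single_eq_same, hr j,
        ← Finset.mul_prod_erase _ _ (Finset.mem_univ j)]
      simp only [Algebra.smul_def, map_mul]
      ring
    · intro i _ hij
      rw [Pi.smul_apply, Pi.smul_apply, Pi.single_eq_of_ne hij.symm, smul_zero, smul_zero]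
    · intro hj
      exact absurd (Finset.mem_univ j) hj
  rw [h2]
  exact Submodule.sum_mem _ fun i _ => M.smul_mem _ (hc i)

/-- An element of `K^n` that lies in all completions of a lattice lies in the lattice. -/
theorem mem_of_mem_completeAt {M : Submodule R (Fin n → K)} (hM : Submodule.IsLattice K M)
    {x : Fin n → K} (hx : ∀ v : HeightOneSpectrum R, emb v x ∈ completeAt v M) : x ∈ M := by
  obtain ⟨c, hc0, hcM⟩ := exists_smul_std_le hM
  set A : Ideal R := den M x with hA
  have hbot : A ≠ ⊥ := by
    obtain ⟨d, hd, hdx⟩ := exists_common_den (R := R) x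
    intro h
    have : c * d ∈ A := by
      rw [hA, mem_den, mul_smul]
      exact hcM _ hdx
    rw [h] at this
    exact mul_ne_zero hc0 hd (by simpa using this)
  by_contra hxM
  have htop : A ≠ ⊤ := by
    intro h
    apply hxM
    have : (1 : R) ∈ A := by rw [h]; trivial
    rw [hA, mem_den, one_smul] at this
    exact this
  obtain ⟨P, hP, hAP⟩ := Ideal.exists_le_maximal A htop
  have hPbot : P ≠ ⊥ := by
    intro h
    rw [h] at hAP
    exact hbot (le_bot_iff.1 hAP)
  let v : HeightOneSpectrum R := ⟨P, hP.isPrime, hPbot⟩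
  obtain ⟨m, hm, hmv⟩ := exists_approx_lattice (hx v) c hc0
  -- coordinates of `(x - m)/c` are integral at `v`
  have hs : ∀ i, ∃ s : R, s ∉ P ∧ ∃ r : R, algebraMap R K s * (x i - m i) =
      algebraMap R K c * algebraMap R K r := by
    intro i
    have hcK : algebraMap R K c ≠ 0 := by simpa using hc0
    have h1 : v.valuation K ((x i - m i) / algebraMap R K c) ≤ 1 := by
      rw [map_div₀, valuation_of_algebraMap]
      have h2 := hmv i
      have h3 : emb v x i - emb v m i = algebraMap K (v.adicCompletion K) (x i - m i) := by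
        simp [emb]
      rw [h3, valued_algebraMap] at h2
      rwa [div_le_one₀ (zero_lt_iff.2 (v.intValuation_ne_zero c hc0))]
    obtain ⟨r, s, hrs⟩ := exists_primeCompl_mul_eq_of_integer v _ h1
    refine ⟨s, s.2, r, ?_⟩
    rw [← hrs]
    field_simp
  choose s hsP r hr using hs
  have hprod : (∏ i, s i) ∉ P := by
    intro h
    obtain ⟨i, _, hi⟩ := hP.isPrime.prod_mem_iff.1 h
    exact hsP i hi
  apply hprod
  apply hAP
  rw [hA, mem_den]
  have h1 : (∏ i, s i) • x = (∏ i, s i) • m + c • ((fun i => algebraMap R K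
      ((∏ j ∈ Finset.univ.erase i, s j) * r i)) : Fin n → K) := by
    funext i
    rw [Pi.add_apply, Pi.smul_apply, Pi.smul_apply, Pi.smul_apply,
      ← Finset.mul_prod_erase _ _ (Finset.mem_univ i)]
    simp only [Algebra.smul_def, map_mul]
    linear_combination (algebraMap R K (∏ x ∈ Finset.univ.erase i, s x)) * hr i
  rw [h1]
  exact M.add_mem (M.smul_mem _ hm) (hcM _ (mem_std.2 fun i => ⟨_, rfl⟩))

/-- A lattice in the genus is a maximal integral lattice. -/
theorem le_of_inGenus (h : EuclideanLattice (Qf a K) (stdLattice R K n))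
    {M N : Submodule R (Fin n → K)} (hM : InGenus a M) (hMN : M ≤ N)
    (hN : IntegralOn (Qf a K) N) : N ≤ M := by
  intro x hx
  refine mem_of_mem_completeAt hM.1 fun v => ?_
  obtain ⟨e, he⟩ := (hM.2 v).exists_equiv
  set Kv := v.adicCompletion K with hKv
  set q : QuadraticForm (v.adicCompletion K) (Fin n → v.adicCompletion K) :=
    Qf a (v.adicCompletion K) with hq
  have he' : ∀ z : completeAt v M, q (e z : Fin n → v.adicCompletion K) = q z := by
    intro z
    rw [hq, Qf_apply, Qf_apply]
    exact he z
  have hepol : ∀ z w : completeAt v M, QuadraticMap.polar q (e z : Fin n → v.adicCompletion K)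
      (e w : Fin n → v.adicCompletion K) = QuadraticMap.polar q z w := by
    intro z w
    have h1 := he' (z + w)
    rw [map_add] at h1
    rw [QuadraticMap.polar, QuadraticMap.polar, he' z, he' w]
    simp only [Submodule.coe_add] at h1
    rw [h1]
  obtain ⟨c, hc0, hcM⟩ := exists_smul_std_le hM.1
  obtain ⟨d, hd, hdx⟩ := exists_common_den (R := R) x
  set b : R := c * d with hb
  have hb0 : b ≠ 0 := mul_ne_zero hc0 hd
  have hbx : b • x ∈ M := by
    rw [hb, mul_smul]
    exact hcM _ hdx
  set z : Fin n → v.adicCompletion K := emb v x with hz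
  set β : v.adicCompletion K := algebraMap R (v.adicCompletion K) b with hβ
  have hβ0 : β ≠ 0 := by
    rw [hβ, IsScalarTower.algebraMap_apply R K (v.adicCompletion K)]
    simpa using hb0
  have hβz : β • z ∈ completeAt v M := by
    rw [hβ, hz, ← emb_smul]
    exact emb_mem hbx
  set w : completeAt v M := ⟨β • z, hβz⟩ with hw
  set z' : Fin n → v.adicCompletion K := β⁻¹ • (e w : Fin n → v.adicCompletion K) with hz'
  have hz'e : (e w : Fin n → v.adicCompletion K) = β • z' := by
    rw [hz', smul_smul, mul_inv_cancel₀ hβ0, one_smul]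
  -- `z` is integral against the completion of `M`
  have hpolM : ∀ m ∈ completeAt v M, QuadraticMap.polar q z m ∈ v.adicCompletionIntegers K := by
    intro m hm
    induction hm using Submodule.span_induction with
    | mem y hy =>
      obtain ⟨y, hy, rfl⟩ := hy
      rw [hz, hq]
      show QuadraticMap.polar (Qf a (v.adicCompletion K)) (fun i => algebraMap K _ (x i))
        (fun i => algebraMap K _ (y i)) ∈ _
      rw [polar_map, algebraMap_mem_iff]
      obtain ⟨r, hr⟩ := hN.polar hx (hMN hy)
      rw [hr]
      exact v.valuation_le_one r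
    | zero =>
      rw [QuadraticMap.polar_zero_right]
      exact zero_mem _
    | add y y' _ _ h1 h2 =>
      rw [QuadraticMap.polar_add_right]
      exact add_mem h1 h2
    | smul r y _ h1 =>
      have : r • y = (r : v.adicCompletion K) • y := rfl
      rw [this, QuadraticMap.polar_smul_right]
      exact mul_mem r.2 h1
  have hqz : q z ∈ v.adicCompletionIntegers K := by
    rw [hz, hq]
    show Qf a (v.adicCompletion K) (fun i => algebraMap K _ (x i)) ∈ _
    rw [Qf_map, algebraMap_mem_iff]
    obtain ⟨r, hr⟩ := hN x hx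
    rw [hr]
    exact v.valuation_le_one r
  have hz'int : ∀ i, z' i ∈ v.adicCompletionIntegers K := by
    refine local_maximal h v z' ?_ ?_
    · have : q z' = q z := by
        rw [hz', QuadraticMap.map_smul, he' w, hw]
        show (β⁻¹ * β⁻¹) • q (β • z) = q z
        rw [QuadraticMap.map_smul, smul_eq_mul, smul_eq_mul]
        field_simp
      show q z' ∈ _
      rw [this]
      exact hqz
    · intro l hl
      have hl' : l ∈ completeAt v (stdLattice R K n) := mem_completeAt_std.2 hl
      obtain ⟨m, hm⟩ := e.surjective ⟨l, hl'⟩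
      have hlm : l = (e m : Fin n → v.adicCompletion K) := by rw [hm]
      show QuadraticMap.polar q z' l ∈ _
      rw [hlm, hz', QuadraticMap.polar_smul_left, hepol, hw]
      show β⁻¹ • QuadraticMap.polar q (β • z) m ∈ _
      rw [QuadraticMap.polar_smul_left, smul_smul, inv_mul_cancel₀ hβ0, one_smul]
      exact hpolM m m.2
  obtain ⟨m', hm'⟩ := e.surjective ⟨z', mem_completeAt_std.2 hz'int⟩
  set βi : v.adicCompletionIntegers K := ⟨β, algebraMap_mem_int v b⟩ with hβi
  have h5 : e w = e (βi • m') := by
    rw [map_smul, hm']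
    apply Subtype.ext
    rw [hz'e]
    rfl
  have h6 : w = βi • m' := e.injective h5
  have h7 : β • z = β • (m' : Fin n → v.adicCompletion K) := congrArg Subtype.val h6
  have h8 : z = m' := by
    have := congrArg (fun t => β⁻¹ • t) h7
    simpa only [smul_smul, inv_mul_cancel₀ hβ0, one_smul] using this
  rw [h8]
  exact m'.2

/-- An anisotropic Euclidean form has class number one. -/
theorem hasClassNumberOne (hfin : ∀ I : Ideal R, I ≠ ⊥ → Finite (R ⧸ I))
    (hani : IsAnisotropic K a) (heuc : IsEuclidean K a) : HasClassNumberOne K a := by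
  intro M hM
  have h := euclideanLattice hfin hani heuc
  have hMint := integralOn_of_inGenus hM
  obtain ⟨σ, hσ, hle⟩ := h.descent hM.1.fg hMint
  set L := stdLattice R K n with hL
  set f : (Fin n → K) ≃ₗ[R] (Fin n → K) := σ.restrictScalars R with hf
  have h1 : M ≤ L.comap f.toLinearMap := by
    rw [← Submodule.map_le_iff_le_comap]
    exact hle
  have h2 : IntegralOn (Qf a K) (L.comap f.toLinearMap) := by
    intro x hx
    obtain ⟨r, hr⟩ := h.integral _ hx
    exact ⟨r, by rw [← hr]; exact (hσ x).symm⟩
  have h3 : L.comap f.toLinearMap ≤ M := le_of_inGenus h hM h1 h2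
  have h4 : M.map f.toLinearMap = L := by
    apply le_antisymm hle
    intro y hy
    refine ⟨f.symm y, h3 ?_, by simp⟩
    show f (f.symm y) ∈ L
    rwa [LinearEquiv.apply_symm_apply]
  refine isometricFor_of_equiv f (fun x => ?_) h4
  rw [← Qf_apply, ← Qf_apply]
  exact hσ x

end Main

end Pool.Agent.Lib.MP_14e93c_nt
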